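import Mathlib

/-!
# Discrete weak Mycielski sets: basic tools

`G = E ≃ᵃⁱ[ℝ] E` for a finite-dimensional real inner product space `E`.
-/

open Filter Topology

namespace Pool.Agent.Q3.WMyc

variable {E : Type*} [NormedAddCommGroup E] [InnerProductSpace ℝ E] [FiniteDimensional ℝ E]

section grp

omit [FiniteDimensional ℝ E]

theorem mul_app (g h : E ≃ᵃⁱ[ℝ] E) (y : E) : (g * h) y = g (h y) := rfl
theorem one_app (y : E) : (1 : E ≃ᵃⁱ[ℝ] E) y = y := rfl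
theorem inv_app (g : E ≃ᵃⁱ[ℝ] E) (y : E) : g⁻¹ (g y) = y := by
  rw [← mul_app, inv_mul_cancel, one_app]
theorem app_inv (g : E ≃ᵃⁱ[ℝ] E) (y : E) : g (g⁻¹ y) = y := by
  rw [← mul_app, mul_inv_cancel, one_app]

theorem norm_map_sub (g : E ≃ᵃⁱ[ℝ] E) (x y : E) : ‖g x - g y‖ = ‖x - y‖ := by
  rw [← dist_eq_norm, ← dist_eq_norm, g.dist_map]

theorem lmul_app (g h : E ≃ₗᵢ[ℝ] E) (y : E) : (g * h) y = g (h y) := rfl
theorem lone_app (y : E) : (1 : E ≃ₗᵢ[ℝ] E) y = y := rfl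
theorem linv_app (g : E ≃ₗᵢ[ℝ] E) (y : E) : g⁻¹ (g y) = y := by
  rw [← lmul_app, inv_mul_cancel, lone_app]
theorem lapp_inv (g : E ≃ₗᵢ[ℝ] E) (y : E) : g (g⁻¹ y) = y := by
  rw [← lmul_app, mul_inv_cancel, lone_app]

/-- The linear part, as a group homomorphism. -/
noncomputable def lin : (E ≃ᵃⁱ[ℝ] E) →* (E ≃ₗᵢ[ℝ] E) where
  toFun g := g.linearIsometryEquiv
  map_one' := by
    ext y
    have := (1 : E ≃ᵃⁱ[ℝ] E).map_vadd 0 y
    simpa using this.symm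
  map_mul' g h := by
    ext y
    have h1 := (g * h).map_vadd 0 y
    have h2 := h.map_vadd 0 y
    have h3 := g.map_vadd (h 0) (h.linearIsometryEquiv y)
    simp only [vadd_eq_add, add_zero, AffineIsometryEquiv.coe_mul, Function.comp_apply] at h1 h2 h3
    rw [h2, h3] at h1
    have := add_right_cancel h1
    simpa using this.symm

theorem app (g : E ≃ᵃⁱ[ℝ] E) (y : E) : g y = lin g y + g 0 := by
  have := g.map_vadd 0 y
  rw [vadd_eq_add, add_zero] at this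
  exact this

theorem lin_sub (g : E ≃ᵃⁱ[ℝ] E) (x y : E) : lin g (x - y) = g x - g y := by
  rw [app g x, app g y, map_sub]; abel

/-- The commutator. -/
def cm {H : Type*} [Group H] (a b : H) : H := a * b * a⁻¹ * b⁻¹

theorem cm_eq_one {H : Type*} [Group H] {a b : H} (h : cm a b = 1) : a * b = b * a := by
  unfold cm at h
  have h1 : a * b * a⁻¹ = b := by
    rw [← mul_inv_eq_one]; exact h
  rw [mul_inv_eq_iff_eq_mul] at h1
  exact h1

end grp

/-- A bounded sequence in a proper space has two close terms. -/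
theorem exists_close {α : Type*} [PseudoMetricSpace α] [ProperSpace α] {s : Set α}
    (hs : Bornology.IsBounded s) {x : ℕ → α} (hx : ∀ n, x n ∈ s) {ε : ℝ} (hε : 0 < ε) :
    ∃ n m, n < m ∧ dist (x n) (x m) < ε := by
  obtain ⟨a, -, φ, hφ, hlim⟩ := tendsto_subseq_of_bounded hs hx
  have := hlim.cauchySeq
  rw [Metric.cauchySeq_iff'] at this
  obtain ⟨N, hN⟩ := this ε hε
  refine ⟨φ N, φ (N + 1), hφ (Nat.lt_succ_self N), ?_⟩
  have := hN (N + 1) (Nat.le_succ N)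
  rw [dist_comm]
  exact this

/-- Recurrence: an isometry with a fixed point returns every point close to itself. -/
theorem recur (w : E ≃ᵃⁱ[ℝ] E) (u : E) (hu : w u = u) (x : E) {ε : ℝ} (hε : 0 < ε) :
    ∃ n : ℕ, 1 ≤ n ∧ ‖(w ^ n) x - x‖ < ε := by
  have hfix : ∀ n : ℕ, (w ^ n) u = u := by
    intro n
    induction n with
    | zero => simp
    | succ n ih => rw [pow_succ, mul_app, hu, ih]
  have hb : ∀ n : ℕ, (w ^ n) x ∈ Metric.closedBall u ‖x - u‖ := by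
    intro n
    rw [Metric.mem_closedBall, dist_eq_norm]
    have := norm_map_sub (w ^ n) x u
    rw [hfix] at this
    exact this.le
  obtain ⟨n, m, hnm, hd⟩ := exists_close Metric.isBounded_closedBall hb hε
  refine ⟨m - n, by omega, ?_⟩
  have h1 : (w ^ m) x = (w ^ n) ((w ^ (m - n)) x) := by
    rw [← mul_app, ← pow_add]
    congr 2
    omega
  rw [h1, dist_comm, dist_eq_norm, norm_map_sub] at hd
  exact hd

/-- `A` moves every vector by at most `c` times its length. -/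
def Near (A : E ≃ₗᵢ[ℝ] E) (c : ℝ) : Prop := ∀ x, ‖A x - x‖ ≤ c * ‖x‖

omit [FiniteDimensional ℝ E] in
theorem near_comm {A C : E ≃ₗᵢ[ℝ] E} {a c : ℝ} (ha : 0 ≤ a) (hc : 0 ≤ c)
    (hA : Near A a) (hC : Near C c) : Near (cm A C) (2 * a * c) := by
  intro x
  obtain ⟨y, hy⟩ : ∃ y, y = A⁻¹ (C⁻¹ x) := ⟨_, rfl⟩
  have hx : C (A y) = x := by rw [hy, lapp_inv, lapp_inv]
  have h1 : cm A C x = A (C y) := by
    rw [cm, lmul_app, lmul_app, lmul_app, ← hy]
  have hny : ‖y‖ = ‖x‖ := by rw [← hx, LinearIsometryEquiv.norm_map, LinearIsometryEquiv.norm_map]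
  have h2 : A (C y) - C (A y) = (A (C y - y) - (C y - y)) - (C (A y - y) - (A y - y)) := by
    rw [map_sub, map_sub]; abel
  have h3 := hA (C y - y)
  have h4 := hC (A y - y)
  have h5 := hC y
  have h6 := hA y
  rw [h1, ← hx, h2]
  rw [hx]
  calc ‖(A (C y - y) - (C y - y)) - (C (A y - y) - (A y - y))‖
      ≤ ‖A (C y - y) - (C y - y)‖ + ‖C (A y - y) - (A y - y)‖ := norm_sub_le _ _
    _ ≤ a * (c * ‖y‖) + c * (a * ‖y‖) := by
        apply add_le_add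
        · exact h3.trans (mul_le_mul_of_nonneg_left h5 ha)
        · exact h4.trans (mul_le_mul_of_nonneg_left h6 hc)
    _ = 2 * a * c * ‖x‖ := by rw [hny]; ring

/-- Powers close to the identity, for two isometries simultaneously. -/
theorem exists_near_pow (A B : E ≃ₗᵢ[ℝ] E) {c : ℝ} (hc : 0 < c) :
    ∃ M : ℕ, 1 ≤ M ∧ Near (A ^ M) c ∧ Near (B ^ M) c := by
  have hcoe : ∀ (A : E ≃ₗᵢ[ℝ] E), ‖((A : E ≃L[ℝ] E) : E →L[ℝ] E)‖ ≤ 1 := by
    intro A
    refine ContinuousLinearMap.opNorm_le_bound _ zero_le_one fun x => ?_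
    simp
  let u : ℕ → (E →L[ℝ] E) × (E →L[ℝ] E) := fun n =>
    ((((A ^ n : E ≃ₗᵢ[ℝ] E) : E ≃L[ℝ] E) : E →L[ℝ] E),
      (((B ^ n : E ≃ₗᵢ[ℝ] E) : E ≃L[ℝ] E) : E →L[ℝ] E))
  have : ProperSpace ((E →L[ℝ] E) × (E →L[ℝ] E)) := FiniteDimensional.proper_real _
  have hb : ∀ n, u n ∈ Metric.closedBall (0 : (E →L[ℝ] E) × (E →L[ℝ] E)) 1 := by
    intro n
    rw [mem_closedBall_zero_iff, Prod.norm_def]
    exact max_le (hcoe _) (hcoe _)
  obtain ⟨n, m, hnm, hd⟩ := exists_close Metric.isBounded_closedBall hb hc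
  have key : ∀ (A : E ≃ₗᵢ[ℝ] E), ‖(((A ^ n : E ≃ₗᵢ[ℝ] E) : E ≃L[ℝ] E) : E →L[ℝ] E) -
      (((A ^ m : E ≃ₗᵢ[ℝ] E) : E ≃L[ℝ] E) : E →L[ℝ] E)‖ ≤ c → Near (A ^ (m - n)) c := by
    intro A hA x
    have h1 : (A ^ m) x = (A ^ n) ((A ^ (m - n)) x) := by
      rw [← lmul_app, ← pow_add]
      congr 2
      omega
    have h2 := ContinuousLinearMap.le_opNorm ((((A ^ n : E ≃ₗᵢ[ℝ] E) : E ≃L[ℝ] E) : E →L[ℝ] E) -
      (((A ^ m : E ≃ₗᵢ[ℝ] E) : E ≃L[ℝ] E) : E →L[ℝ] E)) x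
    have h3 : ((((A ^ n : E ≃ₗᵢ[ℝ] E) : E ≃L[ℝ] E) : E →L[ℝ] E) -
      (((A ^ m : E ≃ₗᵢ[ℝ] E) : E ≃L[ℝ] E) : E →L[ℝ] E)) x = (A ^ n) x - (A ^ m) x := rfl
    rw [h3, h1, ← map_sub, LinearIsometryEquiv.norm_map] at h2
    rw [norm_sub_rev]
    exact h2.trans (mul_le_mul_of_nonneg_right hA (norm_nonneg _))
  rw [Prod.dist_eq, max_lt_iff, dist_eq_norm, dist_eq_norm] at hd
  exact ⟨m - n, by omega, key A hd.1.le, key B hd.2.le⟩

omit [FiniteDimensional ℝ E] in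
/-- If all powers of `K` are close to the identity then `K = 1`. -/
theorem eq_one_of_pow_near {K : E ≃ₗᵢ[ℝ] E} (h : ∀ n : ℕ, Near (K ^ n) (1 / 2)) : K = 1 := by
  have step : ∀ (n : ℕ) (x : E), (3 / 2) * ‖(K ^ n) x - x‖ ≤ ‖(K ^ (2 * n)) x - x‖ := by
    intro n x
    obtain ⟨u, hu⟩ : ∃ u, u = (K ^ n) x - x := ⟨_, rfl⟩
    have h1 : (K ^ (2 * n)) x - x = (2 : ℝ) • u + ((K ^ n) u - u) := by
      rw [two_mul, pow_add, lmul_app, two_smul]
      have : (K ^ n) u = (K ^ n) ((K ^ n) x) - (K ^ n) x := by rw [hu, map_sub]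
      rw [this, hu]
      abel
    have h2 := h n u
    have h3 : ‖(2 : ℝ) • u‖ = 2 * ‖u‖ := by rw [norm_smul]; simp
    have h4 : ‖(2 : ℝ) • u‖ - ‖(K ^ n) u - u‖ ≤ ‖(2 : ℝ) • u + ((K ^ n) u - u)‖ := by
      have := norm_sub_norm_le ((2 : ℝ) • u) (-((K ^ n) u - u))
      rwa [norm_neg, sub_neg_eq_add] at this
    rw [h1, ← hu]
    linarith
  have grow : ∀ (j : ℕ) (x : E), (3 / 2 : ℝ) ^ j * ‖K x - x‖ ≤ ‖(K ^ (2 ^ j)) x - x‖ := by
    intro j x
    induction j with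
    | zero => simp
    | succ j ih =>
      have := step (2 ^ j) x
      rw [← pow_succ'] at this
      calc (3 / 2 : ℝ) ^ (j + 1) * ‖K x - x‖ = (3 / 2) * ((3 / 2 : ℝ) ^ j * ‖K x - x‖) := by ring
        _ ≤ (3 / 2) * ‖(K ^ (2 ^ j)) x - x‖ := by
            apply mul_le_mul_of_nonneg_left ih (by norm_num)
        _ ≤ _ := this
  ext x
  rw [lone_app]
  by_contra hne
  have hpos : 0 < ‖K x - x‖ := norm_pos_iff.2 (sub_ne_zero.2 hne)
  obtain ⟨j, hj⟩ := pow_unbounded_of_one_lt ((1 / 2) * ‖x‖ / ‖K x - x‖) (show (1 : ℝ) < 3 / 2 by norm_num)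
  rw [div_lt_iff₀ hpos] at hj
  have := grow j x
  have h2 := h (2 ^ j) x
  linarith

omit [FiniteDimensional ℝ E] in
/-- If `A` commutes with `cm A C` and `C` is close to the identity then `A`, `C` commute. -/
theorem comm_eq_one {A C : E ≃ₗᵢ[ℝ] E} (hC : Near C (1 / 4)) (hcomm : cm A (cm A C) = 1) :
    cm A C = 1 := by
  obtain ⟨K, hK⟩ : ∃ K, K = cm A C := ⟨_, rfl⟩
  have hAK : A * K = K * A := by
    rw [← hK] at hcomm
    exact cm_eq_one hcomm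
  have hAC : A * C * A⁻¹ = K * C := by
    rw [hK, cm]; group
  have hAKi : A * K * A⁻¹ = K := by rw [hAK]; group
  have hpow : ∀ n : ℕ, A ^ n * C * (A ^ n)⁻¹ = K ^ n * C := by
    intro n
    induction n with
    | zero => simp
    | succ n ih =>
      have h1 : A ^ (n + 1) * C * (A ^ (n + 1))⁻¹ = A * (A ^ n * C * (A ^ n)⁻¹) * A⁻¹ := by
        rw [pow_succ']; group
      have h2 : A * K ^ n * A⁻¹ = K ^ n := by
        have : Commute A (K ^ n) := Commute.pow_right hAK n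
        rw [this.eq]; group
      calc A ^ (n + 1) * C * (A ^ (n + 1))⁻¹ = A * (K ^ n * C) * A⁻¹ := by rw [h1, ih]
        _ = (A * K ^ n * A⁻¹) * (A * C * A⁻¹) := by group
        _ = K ^ (n + 1) * C := by rw [h2, hAC, pow_succ]; group
  rw [← hK]
  apply eq_one_of_pow_near
  intro n x
  obtain ⟨y, hy⟩ : ∃ y, y = C⁻¹ x := ⟨_, rfl⟩
  have hx : C y = x := by rw [hy, lapp_inv]
  have hny : ‖y‖ = ‖x‖ := by rw [← hx, LinearIsometryEquiv.norm_map]
  have h1 : (K ^ n) x = (A ^ n) (C ((A ^ n)⁻¹ y)) := by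
    rw [← hx, ← lmul_app, ← hpow n]; rfl
  obtain ⟨z, hz⟩ : ∃ z, z = (A ^ n)⁻¹ y := ⟨_, rfl⟩
  have hzy : (A ^ n) z = y := by rw [hz, lapp_inv]
  have hnz : ‖z‖ = ‖y‖ := by rw [← hzy, LinearIsometryEquiv.norm_map]
  have h2 : (K ^ n) x - x = (A ^ n) (C z - z) - (C y - y) := by
    rw [h1, ← hz, map_sub, hzy, hx]; abel
  rw [h2]
  have h3 := hC z
  have h4 := hC y
  calc ‖(A ^ n) (C z - z) - (C y - y)‖ ≤ ‖(A ^ n) (C z - z)‖ + ‖C y - y‖ := norm_sub_le _ _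
    _ = ‖C z - z‖ + ‖C y - y‖ := by rw [LinearIsometryEquiv.norm_map]
    _ ≤ 1 / 2 * ‖x‖ := by rw [hnz] at h3; rw [hny] at h3 h4; linarith

/-- An isometry without fixed points escapes in some direction. -/
theorem escape (g : E ≃ᵃⁱ[ℝ] E) (hg : ∀ y, g y ≠ y) :
    ∃ v : E, ∀ y, inner ℝ v (g y) = inner ℝ v y + 1 := by
  let S : Submodule ℝ E := LinearMap.range ((lin g).toLinearEquiv.toLinearMap - LinearMap.id)
  have hS : ∀ y, lin g y - y ∈ S := fun y => ⟨y, rfl⟩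
  have ha : g 0 ∉ S := by
    rintro ⟨u, hu⟩
    apply hg (-u)
    have h1 : lin g u - u = g 0 := hu
    rw [app g (-u), ← h1, map_neg]
    abel
  have h2 : g 0 ∉ Sᗮᗮ := by rwa [Submodule.orthogonal_orthogonal]
  rw [Submodule.mem_orthogonal] at h2
  push Not at h2
  obtain ⟨v, hv, hne⟩ := h2
  refine ⟨(inner ℝ v (g 0))⁻¹ • v, fun y => ?_⟩
  have h3 : inner ℝ v (lin g y - y) = 0 := by
    rw [Submodule.mem_orthogonal'] at hv
    exact hv _ (hS y)
  have h4 : g y = y + ((lin g y - y) + g 0) := by rw [app g y]; abel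
  rw [h4, inner_add_right, inner_smul_left, inner_smul_left, inner_add_right, h3]
  simp only [RCLike.conj_to_real, zero_add]
  rw [inv_mul_cancel₀ hne]

end Pool.Agent.Q3.WMyc
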