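import Pool.Agent.Q3.WMyc.Main

/-!
# There is no discrete weak Mycielski set in a Euclidean space: conclusion
-/

open Filter Topology

namespace Pool.Agent.Q3.WMyc

variable {E : Type*} [NormedAddCommGroup E] [InnerProductSpace ℝ E] [FiniteDimensional ℝ E]

/-- Spanning case. -/
theorem no_two_span {X : Set E} {g h : E ≃ᵃⁱ[ℝ] E} {p q : E} (Hg : Sys X g p) (Hh : Sys X h q)
    (hX : Disc X) (hpq : p ≠ q) (hspan : Submodule.span ℝ ((fun x => x - p) '' X) = ⊤) :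
    False := by
  obtain ⟨D, hDg, hDh⟩ : ∃ D, ‖g 0‖ ≤ D ∧ ‖h 0‖ ≤ D := ⟨_, le_max_left _ _, le_max_right _ _⟩
  obtain ⟨R, hRp, hRq⟩ : ∃ R, ‖p‖ ≤ R ∧ ‖q‖ ≤ R := ⟨_, le_max_left _ _, le_max_right _ _⟩
  have hD : 0 ≤ D := (norm_nonneg _).trans hDg
  have hR : 0 ≤ R := (norm_nonneg _).trans hRp
  have wg : Lws X D R 1 g := Hg.lws hDg hRp
  have wh : Lws X D R 1 h := Hh.lws hDh hRq
  obtain ⟨M, hM, hA, hB⟩ := exists_near_pow (lin g) (lin h) (show (0 : ℝ) < 1 / 16 by norm_num)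
  rw [← map_pow] at hA hB
  obtain ⟨α, hα⟩ : ∃ α, α = g ^ M := ⟨_, rfl⟩
  obtain ⟨β, hβ⟩ : ∃ β, β = h ^ M := ⟨_, rfl⟩
  rw [← hα] at hA
  rw [← hβ] at hB
  have wα : Lws X D R (M : ℝ) α := by
    have := wg.pow hD zero_le_one M; rw [mul_one] at this; rw [hα]; exact this
  have wβ : Lws X D R (M : ℝ) β := by
    have := wh.pow hD zero_le_one M; rw [mul_one] at this; rw [hβ]; exact this
  have hM0 : (0 : ℝ) ≤ M := Nat.cast_nonneg M
  have hcomm : Commute α β := commute_pow Hg hX hspan hD hR hM0 wα wβ hA hB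
  -- positive words starting with `h` have no fixed point
  have nofix : ∀ (w : E ≃ᵃⁱ[ℝ] E), (∀ x ∈ X, w x ∈ X) → ∀ n : ℕ, 1 ≤ n → ∀ u, (h ^ n * w) u ≠ u := by
    intro w hw n hn u
    refine no_fix hX _ (fun x hx => ?_) Hh.memp (fun x hx => ?_) u
    · rw [mul_app]; exact Hh.pow_mem (hw x hx) n
    · rw [mul_app]; exact Hh.pow_ne (hw x hx) n hn
  obtain ⟨v, hv⟩ := Hg.esc hX
  have hvp := hv.ne_zero
  -- every `β ^ j p` lies on the forward `g`-orbit of `p`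
  have horb : ∀ j : ℕ, ∃ i : ℕ, (β ^ j) p = (g ^ i) p := by
    intro j
    by_contra hno
    push Not at hno
    have hβX : (β ^ j) p ∈ X := by rw [hβ, ← pow_mul]; exact Hh.pow_mem Hg.memp _
    have hmem : ∀ s : ℕ, (g ^ s)⁻¹ ((β ^ j) p) ∈ X := by
      intro s
      rcases Hg.desc hβX s with h1 | ⟨i, -, hi⟩
      · exact h1
      · exact absurd hi (hno i)
    have wj : Lws X D R (j * (M : ℝ)) (β ^ j) := wβ.pow hD hM0 j
    obtain ⟨s, hs⟩ := exists_nat_gt (‖v‖ * (R + j * (M : ℝ) * D + ‖(β ^ j) p‖))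
    -- use the multiple `M * (s + 1)`
    have hmem' := hmem (M * (s + 1))
    obtain ⟨y, hy⟩ : ∃ y, y = (g ^ (M * (s + 1)))⁻¹ ((β ^ j) p) := ⟨_, rfl⟩
    rw [← hy] at hmem'
    have hfar : R + j * (M : ℝ) * D < ‖y‖ := by
      have e1 := hv.norm_pow_inv (M * (s + 1)) ((β ^ j) p)
      rw [← hy] at e1
      have e2 : (s : ℝ) ≤ ((M * (s + 1) : ℕ) : ℝ) := by
        have : s ≤ M * (s + 1) := by nlinarith
        exact_mod_cast this
      by_contra hle
      push Not at hle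
      have e3 : ‖v‖ * (‖y‖ + ‖(β ^ j) p‖) ≤ ‖v‖ * (R + j * (M : ℝ) * D + ‖(β ^ j) p‖) :=
        mul_le_mul_of_nonneg_left (by linarith) hvp.le
      linarith
    have h1 := wj.2.2 y hmem' hfar
    have hc : (β ^ j)⁻¹ * (g ^ (M * (s + 1)))⁻¹ = (g ^ (M * (s + 1)))⁻¹ * (β ^ j)⁻¹ := by
      rw [pow_mul, ← hα]
      have : Commute (α ^ (s + 1)) (β ^ j) := (hcomm.pow_pow _ _)
      rw [← mul_inv_rev, ← mul_inv_rev, this.eq]
    have h2 : (β ^ j)⁻¹ y = (g ^ (M * (s + 1)))⁻¹ p := by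
      rw [hy, ← mul_app, hc, mul_app, inv_app]
    rw [h2] at h1
    exact Hg.neg_notMem _ (by nlinarith) h1
  choose ii hii using horb
  -- pigeonhole modulo `M`
  obtain ⟨j, j', hjj, hmod⟩ : ∃ j j' : ℕ, j < j' ∧ ii j % M = ii j' % M := by
    have hmaps : Set.MapsTo (fun j => ii j % M) (Finset.range (M + 1) : Set ℕ)
        (Finset.range M : Set ℕ) := by
      intro j _
      simp only [Finset.coe_range, Set.mem_Iio]
      exact Nat.mod_lt _ (by omega)
    obtain ⟨a, -, b, -, hab, hf⟩ := Finset.exists_ne_map_eq_of_card_lt_of_maps_to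
      (by simp) hmaps
    rcases lt_or_gt_of_ne hab with h1 | h1
    · exact ⟨a, b, h1, hf⟩
    · exact ⟨b, a, h1, hf.symm⟩
  -- `α ^ a * β ^ J` or `β ^ J = α ^ u` at `p`
  have hrel : ∃ (J u : ℕ), 1 ≤ J ∧ 1 ≤ u ∧ (β ^ J) p = (α ^ u) p := by
    have e1 : (β ^ (j' - j)) ((β ^ j) p) = (β ^ j') p := by
      rw [← mul_app, ← pow_add]; congr 2; omega
    rcases le_or_gt (ii j') (ii j) with hle | hlt
    · -- `u ≤ 0`: impossible
      exfalso
      obtain ⟨c, hc⟩ : ∃ c, ii j = ii j' + M * c := by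
        have h1 : M ∣ ii j - ii j' := (Nat.modEq_iff_dvd' hle).1 hmod.symm
        obtain ⟨c, hc⟩ := h1
        exact ⟨c, by omega⟩
      have h1 : (β ^ j) p = (α ^ c) ((β ^ j') p) := by
        rw [hii j, hii j', hc, hα, ← pow_mul, add_comm, pow_add, mul_app]
      have h2 : (β ^ j) p = (β ^ j * (β ^ (j' - j) * α ^ c)) p := by
        have : Commute (α ^ c) (β ^ j') := hcomm.pow_pow _ _
        rw [h1, ← mul_app, this.eq, ← mul_assoc, ← pow_add]
        congr 3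
        omega
      rw [mul_app] at h2
      have h3 := (β ^ j).injective h2
      have h4 : (h ^ (M * (j' - j)) * α ^ c) p = p := by
        rw [pow_mul, ← hβ]; exact h3.symm
      refine nofix (α ^ c) (fun x hx => ?_) (M * (j' - j)) ?_ p h4
      · rw [hα, ← pow_mul]; exact Hg.pow_mem hx _
      · have : 1 ≤ j' - j := by omega
        nlinarith
    · obtain ⟨c, hc⟩ : ∃ c, ii j' = ii j + M * c := by
        have h1 : M ∣ ii j' - ii j := (Nat.modEq_iff_dvd' hlt.le).1 hmod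
        obtain ⟨c, hc⟩ := h1
        exact ⟨c, by omega⟩
      refine ⟨j' - j, c, by omega, ?_, ?_⟩
      · rcases Nat.eq_zero_or_pos c with h0 | h0
        · rw [h0] at hc; omega
        · exact h0
      · have h1 : (β ^ j') p = (α ^ c) ((β ^ j) p) := by
          rw [hii j, hii j', hc, hα, ← pow_mul, add_comm, pow_add, mul_app]
        have h2 : (β ^ j) ((β ^ (j' - j)) p) = (β ^ j) ((α ^ c) p) := by
          have : Commute (α ^ c) (β ^ j) := hcomm.pow_pow _ _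
          rw [← mul_app, ← mul_app, ← this.eq, ← pow_add, mul_app, ← h1]
          congr 2
          omega
        exact (β ^ j).injective h2
  obtain ⟨J, u, hJ, hu, hJu⟩ := hrel
  -- the isometry `ε = α⁻ᵘ βᴶ` fixes `p`
  obtain ⟨e, he⟩ : ∃ e, e = (α ^ u)⁻¹ * β ^ J := ⟨_, rfl⟩
  have hep : e p = p := by rw [he, mul_app, hJu, inv_app]
  have hcu : Commute (α ^ u) (β ^ J) := hcomm.pow_pow _ _
  have hpow : ∀ n : ℕ, e ^ n = (α ^ (u * n))⁻¹ * β ^ (J * n) := by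
    intro n
    have hc : Commute (α ^ u)⁻¹ (β ^ J) := hcu.inv_left
    rw [he, hc.mul_pow, inv_pow, ← pow_mul, ← pow_mul]
  obtain ⟨C, ρ, hρ, hkey⟩ := Hg.key hX hD hR Hh.memp
  obtain ⟨n, hn, hnd⟩ := recur e p hep q hρ
  have wen : ∃ L : ℝ, 0 ≤ L ∧ Lw X D R L (e ^ n) := by
    rw [hpow]
    refine ⟨((u * n : ℕ) : ℝ) * M + ((J * n : ℕ) : ℝ) * M, by positivity, ?_⟩
    exact (Lws.mul hD (by positivity) (by positivity) (wα.pow hD hM0 _).inv (wβ.pow hD hM0 _)).1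
  obtain ⟨L, hL, wL⟩ := wen
  obtain ⟨N', hN'⟩ := exists_nat_ge (C * (L + 1))
  have hN : C * (L + 1) ≤ ((M * N' : ℕ) : ℝ) := by
    refine hN'.trans ?_
    have : N' ≤ M * N' := by nlinarith
    exact_mod_cast this
  have hce : (e ^ n) ((g ^ (M * N')) q) = (g ^ (M * N')) ((e ^ n) q) := by
    rw [pow_mul, ← hα, hpow, ← mul_app, ← mul_app]
    have c1 : Commute (α ^ N') (β ^ (J * n)) := hcomm.pow_pow _ _
    have c2 : Commute (α ^ N') (α ^ (u * n))⁻¹ := (Commute.pow_pow_self α _ _).inv_right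
    rw [(c2.mul_right c1).eq]
  have hq1 := hkey (e ^ n) L (M * N') hL wL hN (by rw [hce, norm_map_sub]; exact hnd)
  rw [hce] at hq1
  have hqe : (e ^ n) q = q := (g ^ (M * N')).injective hq1
  have hpe : (e ^ n) p = p := by
    clear hqe hq1 hce wL hN hN' hnd
    induction n with
    | zero => simp
    | succ n ih =>
      rcases Nat.eq_zero_or_pos n with h0 | h0
      · rw [h0, zero_add, pow_one]; exact hep
      · rw [pow_succ, mul_app, hep, ih h0]
  -- `g⁻ᴷ = h⁻ᴸ` at `p` and at `q`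
  obtain ⟨K, hK⟩ : ∃ K, K = M * (u * n) := ⟨_, rfl⟩
  obtain ⟨L', hL'⟩ : ∃ L', L' = M * (J * n) := ⟨_, rfl⟩
  have hK1 : 1 ≤ K := by rw [hK]; exact Nat.mul_pos (by omega) (Nat.mul_pos (by omega) (by omega))
  have hL1 : 1 ≤ L' := by rw [hL']; exact Nat.mul_pos (by omega) (Nat.mul_pos (by omega) (by omega))
  have hen : e ^ n = h ^ L' * (g ^ K)⁻¹ := by
    rw [hpow, hK, hL', pow_mul h, pow_mul g, ← hα, ← hβ]
    have c1 : Commute (α ^ (u * n)) (β ^ (J * n)) := hcomm.pow_pow _ _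
    exact c1.inv_left.eq
  have hrel2 : ∀ z, (e ^ n) z = z → (g ^ K)⁻¹ z = (h ^ L')⁻¹ z := by
    intro z hz
    have h1 : (h ^ L')⁻¹ ((e ^ n) z) = (g ^ K)⁻¹ z := by
      rw [hen, mul_app, inv_app]
    rw [← h1, hz]
  -- `q` lies on the forward `g`-orbit of `p`, and conversely
  have hqg : ∃ i, 1 ≤ i ∧ q = (g ^ i) p := by
    rcases Hg.desc Hh.memp K with h1 | ⟨i, -, hi⟩
    · rw [hrel2 q hqe] at h1
      exact absurd h1 (Hh.neg_notMem L' hL1)
    · refine ⟨i, ?_, hi⟩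
      rcases Nat.eq_zero_or_pos i with h0 | h0
      · exfalso; rw [h0, pow_zero, one_app] at hi; exact hpq hi.symm
      · exact h0
  have hph : ∃ i, 1 ≤ i ∧ p = (h ^ i) q := by
    rcases Hh.desc Hg.memp L' with h1 | ⟨i, -, hi⟩
    · rw [← hrel2 p hpe] at h1
      exact absurd h1 (Hg.neg_notMem K hK1)
    · refine ⟨i, ?_, hi⟩
      rcases Nat.eq_zero_or_pos i with h0 | h0
      · exfalso; rw [h0, pow_zero, one_app] at hi; exact hpq hi
      · exact h0
  obtain ⟨i, -, hi⟩ := hqg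
  obtain ⟨i', hi', hi2⟩ := hph
  refine nofix (g ^ i) (fun x hx => Hg.pow_mem hx i) i' hi' p ?_
  rw [mul_app, ← hi, ← hi2]

end Pool.Agent.Q3.WMyc
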