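import Pool.Agent.Q3.WMyc.Sys

/-!
# There is no discrete weak Mycielski set in a Euclidean space
-/

open Filter Topology

namespace Pool.Agent.Q3.WMyc

variable {E : Type*} [NormedAddCommGroup E] [InnerProductSpace ℝ E]

/-- Iterated commutators `c₀ = β`, `c_{k+1} = [α, c_k]`. -/
noncomputable def cs (α β : E ≃ᵃⁱ[ℝ] E) : ℕ → (E ≃ᵃⁱ[ℝ] E)
  | 0 => β
  | k + 1 => cm α (cs α β k)

theorem lin_cm (a b : E ≃ᵃⁱ[ℝ] E) : lin (cm a b) = cm (lin a) (lin b) := by
  unfold cm; simp only [map_mul, map_inv]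

theorem Near.mono {A : E ≃ₗᵢ[ℝ] E} {a b : ℝ} (h : Near A a) (hab : a ≤ b) : Near A b :=
  fun x => (h x).trans (mul_le_mul_of_nonneg_right hab (norm_nonneg x))

theorem near_cs {α β : E ≃ᵃⁱ[ℝ] E} (hα : Near (lin α) (1 / 16)) (hβ : Near (lin β) (1 / 16))
    (k : ℕ) : Near (lin (cs α β k)) (1 / 16 * (1 / 8) ^ k) := by
  induction k with
  | zero => simpa [cs] using hβ
  | succ k ih =>
    rw [cs, lin_cm]
    have := near_comm (by norm_num) (by positivity) hα ih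
    have e : 2 * (1 / 16) * (1 / 16 * (1 / 8) ^ k) = (1 / 16 * (1 / 8 : ℝ) ^ (k + 1)) := by
      rw [pow_succ]; ring
    rwa [e] at this

/-- Translation part of a commutator. -/
theorem cm_zero_norm {α γ : E ≃ᵃⁱ[ℝ] E} {a c : ℝ} (ha : 0 ≤ a) (hc : 0 ≤ c)
    (hα : Near (lin α) a) (hγ : Near (lin γ) c) :
    ‖cm α γ 0‖ ≤ 2 * a * c * (‖α 0‖ + ‖γ 0‖) + a * ‖γ 0‖ + c * ‖α 0‖ := by
  obtain ⟨y, hy⟩ : ∃ y, y = α⁻¹ (γ⁻¹ 0) := ⟨_, rfl⟩
  have h0 : γ (α y) = 0 := by rw [hy, app_inv, app_inv]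
  have h1 : cm α γ 0 = α (γ y) := by
    rw [cm, mul_app, mul_app, mul_app, ← hy]
  have hny : ‖y‖ ≤ ‖α 0‖ + ‖γ 0‖ := by
    have e1 := norm_app_zero' γ (α y)
    have e2 := norm_app_zero' α y
    rw [h0, norm_zero] at e1
    linarith
  have h2 : α (γ y) = (lin α (lin γ y) - lin γ (lin α y)) + (lin α (γ 0) - γ 0) -
      (lin γ (α 0) - α 0) := by
    have e1 : α (γ y) = α (γ y) - γ (α y) := by rw [h0, sub_zero]
    rw [e1, app α (γ y), app γ y, app γ (α y), app α y, map_add, map_add]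
    abel
  have h3 : lin α (lin γ y) - lin γ (lin α y) =
      (lin α (lin γ y - y) - (lin γ y - y)) - (lin γ (lin α y - y) - (lin α y - y)) := by
    rw [map_sub, map_sub]; abel
  have h4 : ‖lin α (lin γ y) - lin γ (lin α y)‖ ≤ 2 * a * c * ‖y‖ := by
    rw [h3]
    calc _ ≤ ‖lin α (lin γ y - y) - (lin γ y - y)‖ + ‖lin γ (lin α y - y) - (lin α y - y)‖ :=
          norm_sub_le _ _
      _ ≤ a * (c * ‖y‖) + c * (a * ‖y‖) := by
          apply add_le_add
          · exact (hα _).trans (mul_le_mul_of_nonneg_left (hγ y) ha)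
          · exact (hγ _).trans (mul_le_mul_of_nonneg_left (hα y) hc)
      _ = _ := by ring
  have h5 : 2 * a * c * ‖y‖ ≤ 2 * a * c * (‖α 0‖ + ‖γ 0‖) :=
    mul_le_mul_of_nonneg_left hny (by positivity)
  rw [h1, h2]
  calc _ ≤ ‖(lin α (lin γ y) - lin γ (lin α y)) + (lin α (γ 0) - γ 0)‖ + ‖lin γ (α 0) - α 0‖ :=
        norm_sub_le _ _
    _ ≤ ‖lin α (lin γ y) - lin γ (lin α y)‖ + ‖lin α (γ 0) - γ 0‖ + ‖lin γ (α 0) - α 0‖ := by
        gcongr
        exact norm_add_le _ _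
    _ ≤ _ := by
        have := hα (γ 0)
        have := hγ (α 0)
        linarith

theorem zero_cs {α β : E ≃ᵃⁱ[ℝ] E} (hα : Near (lin α) (1 / 16)) (hβ : Near (lin β) (1 / 16))
    (k : ℕ) : ‖cs α β k 0‖ ≤ (4 * ‖α 0‖ + ‖β 0‖) * (1 / 2) ^ k := by
  induction k with
  | zero => simp only [cs, pow_zero, mul_one]; linarith [norm_nonneg (α 0)]
  | succ k ih =>
    rw [cs]
    have h1 := cm_zero_norm (by norm_num) (by positivity) hα (near_cs hα hβ k)
    have h8 : (1 / 8 : ℝ) ^ k ≤ (1 / 2) ^ k := pow_le_pow_left₀ (by norm_num) (by norm_num) k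
    have h81 : (1 / 8 : ℝ) ^ k ≤ 1 := pow_le_one₀ (by norm_num) (by norm_num)
    have h80 : (0 : ℝ) ≤ (1 / 8) ^ k := by positivity
    have h20 : (0 : ℝ) ≤ (1 / 2) ^ k := by positivity
    obtain ⟨s, hs⟩ : ∃ s, s = (1 / 8 : ℝ) ^ k := ⟨_, rfl⟩
    obtain ⟨t, ht⟩ : ∃ t, t = (1 / 2 : ℝ) ^ k := ⟨_, rfl⟩
    rw [pow_succ, ← ht]
    rw [← hs] at h1 h8 h81 h80
    rw [← ht] at ih h8 h20
    have ha := norm_nonneg (α 0)
    have hb := norm_nonneg (β 0)
    have hc := norm_nonneg (cs α β k 0)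
    nlinarith [mul_le_mul_of_nonneg_right h8 ha, mul_le_mul_of_nonneg_right h81 hc,
      mul_nonneg h20 ha, mul_nonneg h20 hb]

theorem lws_cs {X : Set E} {D R L : ℝ} (hD : 0 ≤ D) (hL : 0 ≤ L) {α β : E ≃ᵃⁱ[ℝ] E}
    (hα : Lws X D R L α) (hβ : Lws X D R L β) (k : ℕ) : Lws X D R (4 ^ k * L) (cs α β k) := by
  induction k with
  | zero => simpa [cs] using hβ
  | succ k ih =>
    have h := Lws.comm hD hL (by positivity) hα ih
    refine h.mono hD ?_
    have : (1 : ℝ) ≤ 4 ^ k := one_le_pow₀ (by norm_num)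
    rw [pow_succ]
    nlinarith [mul_le_mul_of_nonneg_right this hL]

variable [FiniteDimensional ℝ E]

/-- The iterated commutators become trivial. -/
theorem cs_eq_one {X : Set E} {g : E ≃ᵃⁱ[ℝ] E} {p : E} (H : Sys X g p) (hX : Disc X)
    (hspan : Submodule.span ℝ ((fun x => x - p) '' X) = ⊤) {D R L : ℝ} (hD : 0 ≤ D) (hR : 0 ≤ R)
    (hL : 0 ≤ L) {α β : E ≃ᵃⁱ[ℝ] E} (hα : Lws X D R L α) (hβ : Lws X D R L β)
    (hα' : Near (lin α) (1 / 16)) (hβ' : Near (lin β) (1 / 16)) :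
    ∃ k, cs α β k = 1 := by
  have hev : ∀ x ∈ X, ∀ᶠ k : ℕ in atTop, cs α β k ((g ^ (5 ^ k)) x) = (g ^ (5 ^ k)) x := by
    intro x hx
    obtain ⟨C, ρ, hρ, hkey⟩ := H.key hX hD hR hx
    have h1 : ∀ᶠ k : ℕ in atTop, C * (4 ^ k * L + 1) ≤ ((5 ^ k : ℕ) : ℝ) := by
      have hl : Tendsto (fun k : ℕ => C * (L * (4 / 5 : ℝ) ^ k + (1 / 5) ^ k)) atTop
          (𝓝 (C * (L * 0 + 0))) :=
        ((((tendsto_pow_atTop_nhds_zero_of_lt_one (by norm_num) (by norm_num)).const_mul L).add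
          (tendsto_pow_atTop_nhds_zero_of_lt_one (by norm_num) (by norm_num))).const_mul C)
      have h2 := hl.eventually_le_const (show C * (L * 0 + 0) < 1 by simp)
      filter_upwards [h2] with k hk
      have h5 : (0 : ℝ) < 5 ^ k := by positivity
      have e : C * (4 ^ k * L + 1) = (C * (L * (4 / 5 : ℝ) ^ k + (1 / 5) ^ k)) * 5 ^ k := by
        rw [div_pow, div_pow, one_pow]
        field_simp
      rw [e]
      push_cast
      nlinarith
    have h2 : ∀ᶠ k : ℕ in atTop, 1 / 16 * (1 / 8 : ℝ) ^ k * (‖x‖ + 5 ^ k * ‖g 0‖) +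
        (4 * ‖α 0‖ + ‖β 0‖) * (1 / 2) ^ k < ρ := by
      have hl : Tendsto (fun k : ℕ => 1 / 16 * ((1 / 8 : ℝ) ^ k * ‖x‖ + (5 / 8) ^ k * ‖g 0‖) +
          (4 * ‖α 0‖ + ‖β 0‖) * (1 / 2) ^ k) atTop
          (𝓝 (1 / 16 * (0 * ‖x‖ + 0 * ‖g 0‖) + (4 * ‖α 0‖ + ‖β 0‖) * 0)) := by
        refine Tendsto.add (Tendsto.const_mul _ (Tendsto.add (Tendsto.mul_const _ ?_)
          (Tendsto.mul_const _ ?_))) (Tendsto.const_mul _ ?_)
        all_goals exact tendsto_pow_atTop_nhds_zero_of_lt_one (by norm_num) (by norm_num)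
      have h3 := hl.eventually_lt_const
        (show 1 / 16 * (0 * ‖x‖ + 0 * ‖g 0‖) + (4 * ‖α 0‖ + ‖β 0‖) * 0 < ρ by simpa using hρ)
      filter_upwards [h3] with k hk
      have e : 1 / 16 * (1 / 8 : ℝ) ^ k * (‖x‖ + 5 ^ k * ‖g 0‖) =
          1 / 16 * ((1 / 8 : ℝ) ^ k * ‖x‖ + (5 / 8) ^ k * ‖g 0‖) := by
        have : (5 / 8 : ℝ) ^ k = (1 / 8) ^ k * 5 ^ k := by
          rw [← mul_pow]; norm_num
        rw [this]; ring
      rw [e]; exact hk
    filter_upwards [h1, h2] with k hk1 hk2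
    refine hkey _ (4 ^ k * L) _ (by positivity) (lws_cs hD hL hα hβ k).1 hk1 ?_
    obtain ⟨y, hy⟩ : ∃ y, y = (g ^ (5 ^ k)) x := ⟨_, rfl⟩
    have hny : ‖y‖ ≤ ‖x‖ + 5 ^ k * ‖g 0‖ := by
      have := pow_zero_norm g (5 ^ k) x
      rw [← hy] at this
      push_cast at this
      exact this
    rw [← hy]
    have e1 : cs α β k y - y = (lin (cs α β k) y - y) + cs α β k 0 := by
      rw [app (cs α β k) y]; abel
    rw [e1]
    calc ‖(lin (cs α β k) y - y) + cs α β k 0‖ ≤ ‖lin (cs α β k) y - y‖ + ‖cs α β k 0‖ :=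
          norm_add_le _ _
      _ ≤ 1 / 16 * (1 / 8 : ℝ) ^ k * (‖x‖ + 5 ^ k * ‖g 0‖) +
        (4 * ‖α 0‖ + ‖β 0‖) * (1 / 2) ^ k := by
          apply add_le_add _ (zero_cs hα' hβ' k)
          exact (near_cs hα' hβ' k y).trans (mul_le_mul_of_nonneg_left hny (by positivity))
      _ < ρ := hk2
  obtain ⟨s', hs', hs⟩ := (Submodule.fg_span_iff_fg_span_finset_subset
    ((fun x => x - p) '' X)).1 (by rw [hspan]; exact Module.Finite.fg_top)
  have hall : ∀ᶠ k : ℕ in atTop, ∀ u ∈ s', cs α β k ((g ^ (5 ^ k)) (u + p)) =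
      (g ^ (5 ^ k)) (u + p) := by
    rw [Filter.eventually_all_finset]
    intro u hu
    obtain ⟨x, hx, rfl⟩ := hs' hu
    have e : (fun x => x - p) x + p = x := by simp
    rw [e]
    exact hev x hx
  obtain ⟨k, hk, hkp⟩ := (hall.and (hev p H.memp)).exists
  refine ⟨k, ?_⟩
  -- the conjugate `γ = g^{-N} c_k g^N` fixes `p` and all of `u + p`
  obtain ⟨γ, hγ⟩ : ∃ γ, γ = (g ^ (5 ^ k))⁻¹ * cs α β k * g ^ (5 ^ k) := ⟨_, rfl⟩
  have hfixp : γ p = p := by
    rw [hγ, mul_app, mul_app, hkp, inv_app]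
  have hfixu : ∀ u ∈ s', γ (u + p) = u + p := by
    intro u hu
    rw [hγ, mul_app, mul_app, hk u hu, inv_app]
  have hlin : ∀ u ∈ s', lin γ u = u := by
    intro u hu
    have := lin_sub γ (u + p) p
    rw [hfixp, hfixu u hu] at this
    simpa using this
  have hall' : ∀ y, lin γ y = y := by
    intro y
    have hy : y ∈ Submodule.span ℝ (s' : Set E) := by rw [← hs, hspan]; trivial
    induction hy using Submodule.span_induction with
    | mem x hx => exact hlin x hx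
    | zero => simp
    | add x y _ _ hx hy => rw [map_add, hx, hy]
    | smul a x _ hx => rw [map_smul, hx]
  have hγ1 : γ = 1 := by
    ext y
    have := lin_sub γ y p
    rw [hall', hfixp] at this
    rw [one_app]
    exact (sub_left_inj.1 this).symm
  have : cs α β k = g ^ (5 ^ k) * γ * (g ^ (5 ^ k))⁻¹ := by rw [hγ]; group
  rw [this, hγ1]; group

omit [FiniteDimensional ℝ E] in
/-- Descent: a trivial iterated commutator forces commuting linear parts. -/
theorem lin_comm_of_cs {α β : E ≃ᵃⁱ[ℝ] E} (hα : Near (lin α) (1 / 16))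
    (hβ : Near (lin β) (1 / 16)) (h : ∃ k, cs α β k = 1) : lin (cm α β) = 1 := by
  have hk : ∃ k, lin (cs α β (k + 1)) = 1 := by
    obtain ⟨k, hk⟩ := h
    refine ⟨k, ?_⟩
    rw [cs, hk]
    simp [cm]
  obtain ⟨k, hk⟩ := hk
  induction k with
  | zero => simpa [cs] using hk
  | succ k ih =>
    apply ih
    rw [cs, lin_cm] at hk
    rw [cs, lin_cm] at hk ⊢
    refine comm_eq_one ?_ hk
    refine (near_cs hα hβ k).mono ?_
    have : (1 / 8 : ℝ) ^ k ≤ 1 := pow_le_one₀ (by norm_num) (by norm_num)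
    linarith

omit [FiniteDimensional ℝ E] in
theorem cm_trans {α γ : E ≃ᵃⁱ[ℝ] E} (hγ : lin γ = 1) :
    lin (cm α γ) = 1 ∧ cm α γ 0 = lin α (γ 0) - γ 0 := by
  have h1 : ∀ y, γ y = y + γ 0 := by intro y; rw [app γ y, hγ, lone_app]
  have hl : lin (cm α γ) = 1 := by rw [lin_cm, hγ]; simp [cm]
  refine ⟨hl, ?_⟩
  obtain ⟨y, hy⟩ : ∃ y, y = α⁻¹ (γ⁻¹ 0) := ⟨_, rfl⟩
  have h0 : γ (α y) = 0 := by rw [hy, app_inv, app_inv]
  have h2 : cm α γ 0 = α (γ y) := by
    rw [cm, mul_app, mul_app, mul_app, ← hy]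
  rw [h1] at h0
  rw [h2, h1 y, app α (y + γ 0), map_add]
  have h3 : lin α y + α 0 = - γ 0 := by
    rw [← app]; exact eq_neg_of_add_eq_zero_left h0
  calc lin α y + lin α (γ 0) + α 0 = lin α (γ 0) + (lin α y + α 0) := by abel
    _ = _ := by rw [h3]; abel

omit [FiniteDimensional ℝ E] in
/-- Descent for the translation part: `lin α` fixes the translation vector of `[α, β]`. -/
theorem fix_of_cs {α β : E ≃ᵃⁱ[ℝ] E} (hl : lin (cm α β) = 1) (h : ∃ k, cs α β k = 1) :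
    lin α (cm α β 0) = cm α β 0 := by
  have hlin : ∀ k, lin (cs α β (k + 1)) = 1 := by
    intro k
    induction k with
    | zero => simpa [cs] using hl
    | succ k ih => rw [cs]; exact (cm_trans ih).1
  have hrec : ∀ k, cs α β (k + 2) 0 = lin α (cs α β (k + 1) 0) - cs α β (k + 1) 0 := by
    intro k
    have := (cm_trans (α := α) (hlin k)).2
    rw [← this]; rfl
  have hk : ∃ k, cs α β (k + 2) 0 = 0 := by
    obtain ⟨k, hk⟩ := h
    refine ⟨k, ?_⟩
    have : cs α β (k + 2) = 1 := by rw [cs, cs, hk]; simp [cm]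
    rw [this, one_app]
  obtain ⟨k, hk⟩ := hk
  induction k with
  | zero =>
    rw [hrec, sub_eq_zero] at hk
    simpa [cs] using hk
  | succ k ih =>
    apply ih
    obtain ⟨s, hs⟩ : ∃ s, s = cs α β (k + 1) 0 := ⟨_, rfl⟩
    obtain ⟨r, hr⟩ : ∃ r, r = cs α β (k + 2) 0 := ⟨_, rfl⟩
    have h1 : r = lin α s - s := by rw [hr, hs]; exact hrec k
    have h2 : lin α r = r := by
      have := hrec (k + 1)
      rw [show k + 1 + 2 = (k + 1) + 2 from rfl] at this
      rw [hk] at this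
      rw [hr]
      exact (sub_eq_zero.1 this.symm)
    rw [← hr]
    have h3 : inner ℝ r r = (0 : ℝ) := by
      calc inner ℝ r r = inner ℝ (lin α s - s) r := by rw [← h1]
        _ = inner ℝ (lin α s) r - inner ℝ s r := inner_sub_left _ _ _
        _ = inner ℝ (lin α s) (lin α r) - inner ℝ s r := by rw [h2]
        _ = 0 := by rw [LinearIsometryEquiv.inner_map_map, sub_self]
    exact inner_self_eq_zero.1 h3

/-- The powers `α`, `β` commute. -/
theorem commute_pow {X : Set E} {g : E ≃ᵃⁱ[ℝ] E} {p : E} (H : Sys X g p) (hX : Disc X)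
    (hspan : Submodule.span ℝ ((fun x => x - p) '' X) = ⊤) {D R L : ℝ} (hD : 0 ≤ D) (hR : 0 ≤ R)
    (hL : 0 ≤ L) {α β : E ≃ᵃⁱ[ℝ] E} (hα : Lws X D R L α) (hβ : Lws X D R L β)
    (hα' : Near (lin α) (1 / 16)) (hβ' : Near (lin β) (1 / 16)) : α * β = β * α := by
  have h1 := cs_eq_one H hX hspan hD hR hL hα hβ hα' hβ'
  have h2 := cs_eq_one H hX hspan hD hR hL hβ hα hβ' hα'
  have l1 := lin_comm_of_cs hα' hβ' h1
  have l2 := lin_comm_of_cs hβ' hα' h2
  have f1 := fix_of_cs l1 h1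
  have f2 := fix_of_cs l2 h2
  obtain ⟨t, ht⟩ : ∃ t, t = cm α β 0 := ⟨_, rfl⟩
  have e1 : α * β = cm α β * (β * α) := by unfold cm; group
  have e2 : β * α = cm β α * (α * β) := by unfold cm; group
  have a1 : α (β 0) = t + β (α 0) := by
    have : (α * β) 0 = (cm α β * (β * α)) 0 := by rw [← e1]
    rw [mul_app, mul_app, mul_app, app (cm α β), l1, lone_app, ← ht] at this
    rw [this]; abel
  have a2 : β (α 0) = cm β α 0 + α (β 0) := by
    have : (β * α) 0 = (cm β α * (α * β)) 0 := by rw [← e2]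
    rw [mul_app, mul_app, mul_app, app (cm β α), l2, lone_app] at this
    rw [this]; abel
  have h3 : cm β α 0 = -t := by
    rw [a1, ← add_assoc] at a2
    exact eq_neg_of_add_eq_zero_left (right_eq_add.1 a2)
  have f2' : lin β t = t := by
    rw [h3, map_neg] at f2
    exact neg_injective f2
  rw [← ht] at f1
  have h4 : t = (α 0 - lin β (α 0)) - (β 0 - lin α (β 0)) := by
    have : t = α (β 0) - β (α 0) := by rw [a1]; abel
    rw [this, app α (β 0), app β (α 0)]; abel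
  have h5 : inner ℝ t (α 0 - lin β (α 0)) = (0 : ℝ) := by
    have : inner ℝ t (lin β (α 0)) = (inner ℝ t (α 0) : ℝ) := by
      conv_lhs => rw [← f2']
      rw [LinearIsometryEquiv.inner_map_map]
    rw [inner_sub_right, this, sub_self]
  have h6 : inner ℝ t (β 0 - lin α (β 0)) = (0 : ℝ) := by
    have : inner ℝ t (lin α (β 0)) = (inner ℝ t (β 0) : ℝ) := by
      conv_lhs => rw [← f1]
      rw [LinearIsometryEquiv.inner_map_map]
    rw [inner_sub_right, this, sub_self]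
  have h7 : inner ℝ t t = (0 : ℝ) := by
    conv_lhs => rw [h4]
    rw [inner_sub_left, real_inner_comm, real_inner_comm _ (β 0 - _)] 
    rw [← h4, h5, h6, sub_zero]
  have h8 : t = 0 := inner_self_eq_zero.1 h7
  have h9 : cm α β = 1 := by
    ext y
    rw [app (cm α β), l1, lone_app, ← ht, h8, add_zero, one_app]
  exact cm_eq_one h9

end Pool.Agent.Q3.WMyc
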