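import Pool.Agent.Q3.WMyc.Final

/-!
# There is no discrete weak Mycielski set in a Euclidean space: reduction to the spanning case
-/

open Filter Topology

namespace Pool.Agent.Q3.WMyc

variable {E : Type*} [NormedAddCommGroup E] [InnerProductSpace ℝ E] [FiniteDimensional ℝ E]

/-- The direction space of `X` based at `p`. -/
abbrev Dir (X : Set E) (p : E) : Submodule ℝ E := Submodule.span ℝ ((fun x => x - p) '' X)

omit [FiniteDimensional ℝ E] in
theorem sub_mem_dir {X : Set E} {p x : E} (hx : x ∈ X) : x - p ∈ Dir X p :=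
  Submodule.subset_span ⟨x, hx, rfl⟩

/-- Restriction of a system to the affine hull of `X`. -/
theorem Sys.restrict {X : Set E} {g : E ≃ᵃⁱ[ℝ] E} {r p : E} (H : Sys X g r) (hp : p ∈ X) :
    ∃ g' : Dir X p ≃ᵃⁱ[ℝ] Dir X p,
      Sys {w : Dir X p | (w : E) + p ∈ X} g' ⟨r - p, sub_mem_dir H.memp⟩ := by
  have hW : ∀ u ∈ Dir X p, lin g u ∈ Dir X p := by
    intro u hu
    induction hu using Submodule.span_induction with
    | mem y hy =>
      obtain ⟨x, hx, rfl⟩ := hy
      have : lin g (x - p) = (g x - p) - (g p - p) := by rw [lin_sub]; abel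
      show lin g (x - p) ∈ Dir X p
      rw [this]
      exact Submodule.sub_mem _ (sub_mem_dir (H.fwd x hx)) (sub_mem_dir (H.fwd p hp))
    | zero => rw [map_zero]; exact Submodule.zero_mem _
    | add x y _ _ hx hy => rw [map_add]; exact Submodule.add_mem _ hx hy
    | smul a x _ hx => rw [map_smul]; exact Submodule.smul_mem _ _ hx
  let A : Dir X p →ₗᵢ[ℝ] Dir X p :=
    { toLinearMap := (lin g).toLinearEquiv.toLinearMap.restrict hW
      norm_map' := fun u => by
        show ‖lin g (u : E)‖ = ‖(u : E)‖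
        exact LinearIsometryEquiv.norm_map _ _ }
  have hA : ∀ u : Dir X p, ((A u : Dir X p) : E) = lin g (u : E) := fun u => rfl
  let A' : Dir X p ≃ₗᵢ[ℝ] Dir X p := A.toLinearIsometryEquiv rfl
  have hA' : ∀ u : Dir X p, ((A' u : Dir X p) : E) = lin g (u : E) := fun u => rfl
  let a : Dir X p := ⟨g p - p, sub_mem_dir (H.fwd p hp)⟩
  let g' : Dir X p ≃ᵃⁱ[ℝ] Dir X p := AffineIsometryEquiv.mk' (fun w => A' w + a) A' 0 (by
    intro w; simp)
  have hg' : ∀ w : Dir X p, ((g' w : Dir X p) : E) + p = g ((w : E) + p) := by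
    intro w
    have e1 : ((g' w : Dir X p) : E) = lin g (w : E) + (g p - p) := rfl
    have e2 := lin_sub g ((w : E) + p) p
    rw [add_sub_cancel_right] at e2
    rw [e1, e2]; abel
  refine ⟨g', ?_, ?_, ?_, ?_⟩
  · show r - p + p ∈ X
    rw [sub_add_cancel]; exact H.memp
  · intro w hw
    show ((g' w : Dir X p) : E) + p ∈ X
    rw [hg']; exact H.fwd _ hw
  · intro w hw h
    have h1 : ((g' w : Dir X p) : E) = r - p := by rw [h]
    have h2 := hg' w
    rw [h1, sub_add_cancel] at h2
    exact H.ne _ hw h2.symm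
  · intro y hy hne
    have hne' : (y : E) + p ≠ r := by
      intro h
      apply hne
      apply Subtype.ext
      show (y : E) = r - p
      rw [← h]; abel
    have hx := H.bwd _ hy hne'
    obtain ⟨x, hxd⟩ : ∃ x, x = g⁻¹ ((y : E) + p) := ⟨_, rfl⟩
    rw [← hxd] at hx
    have hgx : g x = (y : E) + p := by rw [hxd, app_inv]
    let w : Dir X p := ⟨x - p, sub_mem_dir hx⟩
    have h1 : g' w = y := by
      apply Subtype.ext
      have := hg' w
      have e : ((w : Dir X p) : E) + p = x := by
        show x - p + p = x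
        abel
      rw [e, hgx] at this
      exact add_right_cancel this
    have h2 : g'⁻¹ y = w := by rw [← h1, inv_app]
    rw [h2]
    show x - p + p ∈ X
    rw [sub_add_cancel]; exact hx

theorem no_two {X : Set E} {g h : E ≃ᵃⁱ[ℝ] E} {p q : E} (Hg : Sys X g p) (Hh : Sys X h q)
    (hX : Disc X) (hpq : p ≠ q) : False := by
  obtain ⟨g', Hg'⟩ := Hg.restrict Hg.memp
  obtain ⟨h', Hh'⟩ := Hh.restrict Hg.memp
  refine no_two_span Hg' Hh' ?_ ?_ ?_
  · intro x hx
    obtain ⟨ε, hε, hiso⟩ := hX _ hx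
    refine ⟨ε, hε, fun y hy hd => ?_⟩
    have : ‖((y : E) + p) - ((x : E) + p)‖ < ε := by
      have e : ((y : E) + p) - ((x : E) + p) = ((y - x : Dir X p) : E) := by
        push_cast; abel
      rw [e]; exact hd
    have h1 := hiso _ hy this
    exact Subtype.ext (add_right_cancel h1)
  · intro h1
    have h2 : p - p = q - p := congrArg Subtype.val h1
    exact hpq (sub_left_inj.1 h2)
  · rw [eq_top_iff, ← Submodule.span_span_coe_preimage (R := ℝ) (s := (fun x => x - p) '' X)]
    apply Submodule.span_mono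
    rintro ⟨y, hy⟩ hmem
    obtain ⟨x, hx, hxy⟩ := hmem
    have hxy' : x - p = y := hxy
    refine ⟨⟨y, hy⟩, ?_, ?_⟩
    · show y + p ∈ X
      rw [← hxy', sub_add_cancel]; exact hx
    · apply Subtype.ext
      show y - (p - p) = y
      rw [sub_self, sub_zero]

end Pool.Agent.Q3.WMyc
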