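import Pool.Agent.Q3.WMyc.Basic

/-!
# Discrete weak Mycielski sets: dynamics of one isometry removing a point
-/

open Filter Topology

namespace Pool.Agent.Q3.WMyc

variable {E : Type*} [NormedAddCommGroup E] [InnerProductSpace ℝ E]

/-- Every point of `X` is isolated in `X`. -/
def Disc (X : Set E) : Prop := ∀ x ∈ X, ∃ ε > 0, ∀ y ∈ X, ‖y - x‖ < ε → y = x

/-- `g` maps `X` onto `X \ {p}` with `p ∈ X`. -/
structure Sys (X : Set E) (g : E ≃ᵃⁱ[ℝ] E) (p : E) : Prop where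
  memp : p ∈ X
  fwd : ∀ x ∈ X, g x ∈ X
  ne : ∀ x ∈ X, g x ≠ p
  bwd : ∀ y ∈ X, y ≠ p → g⁻¹ y ∈ X

theorem Sys.of_image {X : Set E} {g : E ≃ᵃⁱ[ℝ] E} {p : E} (hp : p ∈ X) (h : g '' X = X \ {p}) :
    Sys X g p where
  memp := hp
  fwd x hx := by
    have : g x ∈ g '' X := ⟨x, hx, rfl⟩
    rw [h] at this; exact this.1
  ne x hx := by
    have : g x ∈ g '' X := ⟨x, hx, rfl⟩
    rw [h] at this; exact this.2
  bwd y hy hne := by
    have : y ∈ g '' X := by rw [h]; exact ⟨hy, hne⟩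
    obtain ⟨x, hx, rfl⟩ := this
    rwa [inv_app]

variable {X : Set E} {g : E ≃ᵃⁱ[ℝ] E} {p : E}

theorem pow_app_inv (g : E ≃ᵃⁱ[ℝ] E) (n : ℕ) (y : E) : (g ^ n) ((g ^ n)⁻¹ y) = y := app_inv _ _

theorem Sys.pow_mem (H : Sys X g p) {x : E} (hx : x ∈ X) (n : ℕ) : (g ^ n) x ∈ X := by
  induction n with
  | zero => simpa using hx
  | succ n ih => rw [pow_succ', mul_app]; exact H.fwd _ ih

theorem Sys.pow_ne (H : Sys X g p) {x : E} (hx : x ∈ X) (n : ℕ) (hn : 1 ≤ n) :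
    (g ^ n) x ≠ p := by
  obtain ⟨m, rfl⟩ : ∃ m, n = m + 1 := ⟨n - 1, by omega⟩
  rw [pow_succ', mul_app]
  exact H.ne _ (H.pow_mem hx m)

theorem Sys.neg_notMem (H : Sys X g p) (n : ℕ) (hn : 1 ≤ n) : (g ^ n)⁻¹ p ∉ X := by
  intro h
  exact H.pow_ne h n hn (app_inv _ _)

theorem Sys.desc (H : Sys X g p) {y : E} (hy : y ∈ X) (n : ℕ) :
    (g ^ n)⁻¹ y ∈ X ∨ ∃ i, i < n ∧ y = (g ^ i) p := by
  induction n with
  | zero => left; simpa using hy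
  | succ n ih =>
    rcases ih with h | ⟨i, hi, h⟩
    · by_cases hp : (g ^ n)⁻¹ y = p
      · right
        refine ⟨n, Nat.lt_succ_self n, ?_⟩
        rw [← hp, app_inv]
      · left
        have := H.bwd _ h hp
        rw [pow_succ, mul_inv_rev, mul_app]
        exact this
    · right; exact ⟨i, by omega, h⟩

/-- A map sending `X` into itself and missing a point of `X` has no fixed point. -/
theorem no_fix [FiniteDimensional ℝ E] (hX : Disc X) (w : E ≃ᵃⁱ[ℝ] E) (hw : ∀ x ∈ X, w x ∈ X)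
    {x0 : E} (h0 : x0 ∈ X) (hne : ∀ x ∈ X, w x ≠ x0) (u : E) : w u ≠ u := by
  intro hu
  obtain ⟨ε, hε, hiso⟩ := hX x0 h0
  obtain ⟨n, hn, hd⟩ := recur w u hu x0 hε
  have hmem : ∀ k : ℕ, (w ^ k) x0 ∈ X := by
    intro k
    induction k with
    | zero => simpa using h0
    | succ k ih => rw [pow_succ', mul_app]; exact hw _ ih
  have h1 := hiso _ (hmem n) hd
  obtain ⟨m, rfl⟩ : ∃ m, n = m + 1 := ⟨n - 1, by omega⟩
  rw [pow_succ', mul_app] at h1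
  exact hne _ (hmem m) h1

/-- `v` is a direction in which `g` moves every point by one. -/
def Esc (g : E ≃ᵃⁱ[ℝ] E) (v : E) : Prop := ∀ y, inner ℝ v (g y) = inner ℝ v y + 1

theorem Esc.pow {v : E} (h : Esc g v) (n : ℕ) (y : E) :
    inner ℝ v ((g ^ n) y) = inner ℝ v y + n := by
  induction n with
  | zero => simp
  | succ n ih => rw [pow_succ', mul_app, h, ih]; push_cast; ring

theorem Esc.pow_inv {v : E} (h : Esc g v) (n : ℕ) (y : E) :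
    inner ℝ v ((g ^ n)⁻¹ y) = inner ℝ v y - n := by
  have := h.pow n ((g ^ n)⁻¹ y)
  rw [app_inv] at this
  linarith

theorem Esc.ne_zero {v : E} (h : Esc g v) : 0 < ‖v‖ := by
  rw [norm_pos_iff]
  rintro rfl
  have := h 0
  simp at this

theorem Sys.esc [FiniteDimensional ℝ E] (H : Sys X g p) (hX : Disc X) : ∃ v, Esc g v :=
  escape g (no_fix hX g H.fwd H.memp H.ne)

theorem Esc.norm_pow {v : E} (h : Esc g v) (n : ℕ) (y : E) :
    (n : ℝ) ≤ ‖v‖ * (‖(g ^ n) y‖ + ‖y‖) := by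
  have h1 := h.pow n y
  have h2 := abs_le.1 (abs_real_inner_le_norm v ((g ^ n) y))
  have h3 := abs_le.1 (abs_real_inner_le_norm v y)
  nlinarith [h2.2, h3.1]

theorem Esc.norm_pow_inv {v : E} (h : Esc g v) (n : ℕ) (y : E) :
    (n : ℝ) ≤ ‖v‖ * (‖(g ^ n)⁻¹ y‖ + ‖y‖) := by
  have h1 := h.pow_inv n y
  have h2 := abs_le.1 (abs_real_inner_le_norm v ((g ^ n)⁻¹ y))
  have h3 := abs_le.1 (abs_real_inner_le_norm v y)
  nlinarith [h2.1, h3.2]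

/-- Words of length at most `L`: they shorten vectors by at most `L * D` and stay inside `X`
far away from the origin. -/
def Lw (X : Set E) (D R L : ℝ) (w : E ≃ᵃⁱ[ℝ] E) : Prop :=
  (∀ y, ‖y‖ - L * D ≤ ‖w y‖) ∧ ∀ y ∈ X, R + L * D < ‖y‖ → w y ∈ X

/-- Both `w` and `w⁻¹` are words of length at most `L`. -/
def Lws (X : Set E) (D R L : ℝ) (w : E ≃ᵃⁱ[ℝ] E) : Prop := Lw X D R L w ∧ Lw X D R L w⁻¹

variable {D R L L₁ L₂ : ℝ} {w w₁ w₂ : E ≃ᵃⁱ[ℝ] E}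

theorem Lw.mono (h : Lw X D R L₁ w) (hD : 0 ≤ D) (hL : L₁ ≤ L₂) : Lw X D R L₂ w := by
  have h0 : L₁ * D ≤ L₂ * D := mul_le_mul_of_nonneg_right hL hD
  exact ⟨fun y => by linarith [h.1 y], fun y hy hn => h.2 y hy (by linarith)⟩

theorem Lw.mul (hD : 0 ≤ D) (hL : 0 ≤ L₁) (h1 : Lw X D R L₁ w₁) (h2 : Lw X D R L₂ w₂) :
    Lw X D R (L₁ + L₂) (w₁ * w₂) := by
  have h0 : 0 ≤ L₁ * D := mul_nonneg hL hD
  refine ⟨fun y => ?_, fun y hy hn => ?_⟩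
  · rw [mul_app]
    linarith [h1.1 (w₂ y), h2.1 y]
  · rw [mul_app]
    exact h1.2 _ (h2.2 y hy (by linarith)) (by linarith [h2.1 y])

theorem Lws.mono (h : Lws X D R L₁ w) (hD : 0 ≤ D) (hL : L₁ ≤ L₂) : Lws X D R L₂ w :=
  ⟨h.1.mono hD hL, h.2.mono hD hL⟩

theorem Lws.inv (h : Lws X D R L w) : Lws X D R L w⁻¹ := ⟨h.2, by rw [inv_inv]; exact h.1⟩

theorem Lws.mul (hD : 0 ≤ D) (hL : 0 ≤ L₁) (hL2 : 0 ≤ L₂) (h1 : Lws X D R L₁ w₁)
    (h2 : Lws X D R L₂ w₂) : Lws X D R (L₁ + L₂) (w₁ * w₂) := by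
  refine ⟨Lw.mul hD hL h1.1 h2.1, ?_⟩
  rw [mul_inv_rev, add_comm]
  exact Lw.mul hD hL2 h2.2 h1.2

theorem Lws.one (hD : 0 ≤ D) (hL : 0 ≤ L) : Lws X D R L (1 : E ≃ᵃⁱ[ℝ] E) := by
  have h0 : 0 ≤ L * D := mul_nonneg hL hD
  have : Lw X D R L (1 : E ≃ᵃⁱ[ℝ] E) :=
    ⟨fun y => by rw [one_app]; linarith, fun y hy _ => by rw [one_app]; exact hy⟩
  exact ⟨this, by rw [inv_one]; exact this⟩

theorem Lws.pow (hD : 0 ≤ D) (hL : 0 ≤ L) (h : Lws X D R L w) (n : ℕ) :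
    Lws X D R (n * L) (w ^ n) := by
  induction n with
  | zero => simpa using Lws.one hD le_rfl
  | succ n ih =>
    have := Lws.mul hD (by positivity) hL ih h
    rw [← pow_succ] at this
    have e : (n : ℝ) * L + L = ((n + 1 : ℕ) : ℝ) * L := by push_cast; ring
    rwa [e] at this

theorem Lws.comm (hD : 0 ≤ D) (hL : 0 ≤ L₁) (hL2 : 0 ≤ L₂) (h1 : Lws X D R L₁ w₁)
    (h2 : Lws X D R L₂ w₂) : Lws X D R (2 * L₁ + 2 * L₂) (cm w₁ w₂) := by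
  have h := Lws.mul hD (by positivity) hL2 (Lws.mul hD (by positivity) hL
    (Lws.mul hD hL hL2 h1 h2) h1.inv) h2.inv
  have e : L₁ + L₂ + L₁ + L₂ = 2 * L₁ + 2 * L₂ := by ring
  rwa [e] at h

theorem norm_app_zero (w : E ≃ᵃⁱ[ℝ] E) (y : E) : ‖w y‖ ≤ ‖y‖ + ‖w 0‖ := by
  have := norm_map_sub w y 0
  rw [sub_zero] at this
  have h2 := norm_sub_norm_le (w y) (w 0)
  linarith

theorem norm_app_zero' (w : E ≃ᵃⁱ[ℝ] E) (y : E) : ‖y‖ - ‖w 0‖ ≤ ‖w y‖ := by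
  have := norm_map_sub w y 0
  rw [sub_zero] at this
  have h2 := norm_sub_le (w y) (w 0)
  linarith

theorem Sys.lws (H : Sys X g p) (hD : ‖g 0‖ ≤ D) (hR : ‖p‖ ≤ R) : Lws X D R 1 g := by
  have hinv : ∀ y, ‖y‖ - D ≤ ‖g⁻¹ y‖ := by
    intro y
    have := norm_app_zero g (g⁻¹ y)
    rw [app_inv] at this
    linarith
  have hD0 : 0 ≤ D := (norm_nonneg _).trans hD
  refine ⟨⟨fun y => ?_, fun y hy _ => H.fwd y hy⟩, ⟨fun y => ?_, fun y hy hn => H.bwd y hy ?_⟩⟩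
  · rw [one_mul]; linarith [norm_app_zero' g y]
  · rw [one_mul]; exact hinv y
  · rintro rfl
    rw [one_mul] at hn
    linarith

theorem pow_zero_norm (g : E ≃ᵃⁱ[ℝ] E) (n : ℕ) (x : E) : ‖(g ^ n) x‖ ≤ ‖x‖ + n * ‖g 0‖ := by
  induction n with
  | zero => simp
  | succ n ih =>
    rw [pow_succ', mul_app]
    have := norm_app_zero g ((g ^ n) x)
    push_cast
    linarith

/-- The backward orbit of `p` stays away from every point of `X`. -/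
theorem Sys.away (H : Sys X g p) {v : E} (hv : Esc g v) {x : E} (hx : x ∈ X) :
    ∃ ε > 0, ∀ s : ℕ, 1 ≤ s → ε ≤ ‖(g ^ s)⁻¹ p - x‖ := by
  have hvp := hv.ne_zero
  obtain ⟨n0, hn0⟩ := exists_nat_ge (‖v‖ * (‖p‖ + ‖x‖) + ‖v‖)
  have h1 : ∀ s : ℕ, n0 ≤ s → 1 ≤ ‖(g ^ s)⁻¹ p - x‖ := by
    intro s hs
    have e1 := hv.norm_pow_inv s p
    have hs' : (n0 : ℝ) ≤ s := by exact_mod_cast hs
    have e2 := norm_sub_norm_le ((g ^ s)⁻¹ p) x
    by_contra hlt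
    push Not at hlt
    have e3 : ‖(g ^ s)⁻¹ p‖ < 1 + ‖x‖ := by linarith
    have e4 : ‖v‖ * (‖(g ^ s)⁻¹ p‖ + ‖p‖) < ‖v‖ * (1 + ‖x‖ + ‖p‖) :=
      mul_lt_mul_of_pos_left (by linarith) hvp
    nlinarith
  have h2 : ∀ s ∈ Finset.range n0, ∀ᶠ ε in 𝓝[>] (0 : ℝ), 1 ≤ s → ε ≤ ‖(g ^ s)⁻¹ p - x‖ := by
    intro s _
    by_cases hs : 1 ≤ s
    · have hpos : 0 < ‖(g ^ s)⁻¹ p - x‖ := by
        rw [norm_pos_iff, sub_ne_zero]
        rintro h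
        exact H.neg_notMem s hs (h ▸ hx)
      filter_upwards [Ioo_mem_nhdsGT hpos] with ε hε _
      exact hε.2.le
    · exact Eventually.of_forall fun ε h => absurd h hs
  have h3 := (Filter.eventually_all_finset (Finset.range n0)).2 h2
  obtain ⟨ε, ⟨hε, hε0⟩, hε1⟩ := (h3.and (self_mem_nhdsWithin : Set.Ioi (0 : ℝ) ∈ 𝓝[>] (0 : ℝ)) |>.and
    (Ioo_mem_nhdsGT (show (0 : ℝ) < 1 by norm_num))).exists
  refine ⟨ε, hε0, fun s hs => ?_⟩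
  by_cases hsn : s < n0
  · exact hε s (Finset.mem_range.2 hsn) hs
  · exact hε1.2.le.trans (h1 s (by omega))

/-- **Key Lemma.** A word that is short compared with `N` and almost fixes `g ^ N x` fixes it. -/
theorem Sys.key [FiniteDimensional ℝ E] (H : Sys X g p) (hX : Disc X) {D R : ℝ} (hD : 0 ≤ D)
    (hR : 0 ≤ R) {x : E} (hx : x ∈ X) :
    ∃ C ρ : ℝ, 0 < ρ ∧ ∀ (w : E ≃ᵃⁱ[ℝ] E) (L : ℝ) (N : ℕ), 0 ≤ L → Lw X D R L w →
      C * (L + 1) ≤ N → ‖w ((g ^ N) x) - (g ^ N) x‖ < ρ → w ((g ^ N) x) = (g ^ N) x := by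
  obtain ⟨v, hv⟩ := H.esc hX
  have hvp := hv.ne_zero
  obtain ⟨ε₁, hε₁, haway⟩ := H.away hv hx
  obtain ⟨ε₂, hε₂, hiso⟩ := hX x hx
  refine ⟨‖v‖ * (2 * ‖x‖ + R + D + 1), min ε₁ ε₂, lt_min hε₁ hε₂, ?_⟩
  intro w L N hL hw hN hd
  obtain ⟨y, hy⟩ : ∃ y, y = (g ^ N) x := ⟨_, rfl⟩
  rw [← hy] at hd ⊢
  have hyX : y ∈ X := hy ▸ H.pow_mem hx N
  have hfar : R + L * D < ‖y‖ := by
    have e1 := hv.norm_pow N x
    rw [← hy] at e1
    by_contra hle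
    push Not at hle
    have e2 : ‖v‖ * (‖y‖ + ‖x‖) ≤ ‖v‖ * (R + L * D + ‖x‖) :=
      mul_le_mul_of_nonneg_left (by linarith) hvp.le
    have e3 : ‖v‖ * (R + L * D + ‖x‖) < ‖v‖ * (2 * ‖x‖ + R + D + 1) * (L + 1) := by
      rw [mul_assoc]
      apply mul_lt_mul_of_pos_left _ hvp
      nlinarith [mul_nonneg hL hD, mul_nonneg hL hR, mul_nonneg hL (norm_nonneg x), norm_nonneg x]
    linarith
  have hwy : w y ∈ X := hw.2 y hyX hfar
  obtain ⟨z, hz⟩ : ∃ z, z = (g ^ N)⁻¹ (w y) := ⟨_, rfl⟩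
  have hgz : (g ^ N) z = w y := by rw [hz, app_inv]
  have hzx : ‖z - x‖ = ‖w y - y‖ := by rw [← hgz, hy, norm_map_sub]
  rcases H.desc hwy N with h | ⟨i, hi, h⟩
  · rw [← hz] at h
    have := hiso z h (by rw [hzx]; exact hd.trans_le (min_le_right _ _))
    rw [← hgz, this, hy]
  · exfalso
    have h1 : z = (g ^ (N - i))⁻¹ p := by
      rw [hz, h]
      have : g ^ N = g ^ i * g ^ (N - i) := by rw [← pow_add]; congr 1; omega
      rw [this, mul_inv_rev, mul_app, inv_app]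
    have h2 := haway (N - i) (by omega)
    rw [← h1, hzx] at h2
    exact absurd (hd.trans_le (min_le_left _ _)) (not_lt.2 h2)

end Pool.Agent.Q3.WMyc
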